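import Pool.Agent.QUD.StmtsL

/-! # OPP: opposite sides of a convex quadrilateral have no common point (QUD, MP_5b0138_an) -/

set_option autoImplicit false

namespace Pool.Agent.QUD.H65

open Pool.Agent.H62T Pool.Agent.AEU Pool.Agent.XQ Pool.Agent.QUD

/-- Cramer's rule for three normals, tested against a vector -/
theorem cramer65 (a b c z : ℂ) :
    dt a c * ip b z = dt b c * ip a z + dt a b * ip c z := by
  simp only [dt, ip]
  ring

/-- a point on the sides `a` and `c` of a polygon violates the side `b` between them -/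
theorem opp_aux65 (X : Finset HP) (a b c : HP) (ha : a ∈ X) (hb : b ∈ X) (hc : c ∈ X)
    (hab : a ≠ b) (hcb : c ≠ b) (hside : ∃ x, ip b.1 x = b.2 ∧ ∀ t ∈ X, t ≠ b → ip t.1 x < t.2)
    (h1 : 0 < dt a.1 b.1) (h2 : 0 < dt b.1 c.1) (h3 : 0 < dt a.1 c.1) (v : ℂ) (hv : v ∈ Cl X)
    (hav : ip a.1 v = a.2) (hcv : ip c.1 v = c.2) : False := by
  obtain ⟨x, hx, hxt⟩ := hside
  have hxa := hxt a ha hab
  have hxc := hxt c hc hcb
  have e1 := cramer65 a.1 b.1 c.1 v
  have e2 := cramer65 a.1 b.1 c.1 x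
  have hbv : ip b.1 v ≤ b.2 := hv b hb
  rw [hav, hcv] at e1
  rw [hx] at e2
  have m1 : dt b.1 c.1 * ip a.1 x < dt b.1 c.1 * a.2 := mul_lt_mul_of_pos_left hxa h2
  have m2 : dt a.1 b.1 * ip c.1 x < dt a.1 b.1 * c.2 := mul_lt_mul_of_pos_left hxc h1
  have m3 : dt a.1 c.1 * ip b.1 v ≤ dt a.1 c.1 * b.2 := mul_le_mul_of_nonneg_left hbv h3.le
  linarith

theorem dt_anti65 (z w : ℂ) : dt z w = -dt w z := by
  simp only [dt]
  ring

/-- OPP -/
theorem opp (vxx : VxxStatement) : OppStmt := by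
  intro a b c d h v hv hav hcv
  obtain ⟨-, -, -, -, q5, -⟩ := vxx _ h.pg
  obtain ⟨hab, hac, had, hbc, hbd, hcd⟩ := h.ne
  have ma : a ∈ ({a, b, c, d} : Finset HP) := by simp
  have mb : b ∈ ({a, b, c, d} : Finset HP) := by simp
  have mc : c ∈ ({a, b, c, d} : Finset HP) := by simp
  have md : d ∈ ({a, b, c, d} : Finset HP) := by simp
  have hne : dt a.1 c.1 ≠ 0 := (q5 a c v ⟨hv, ma, mc, hac, hav, hcv⟩).2.2
  rcases lt_or_gt_of_ne hne with hlt | hgt
  · have h3 : 0 < dt c.1 a.1 := by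
      rw [dt_anti65]
      linarith
    exact opp_aux65 _ c d a mc md ma hcd had (h.pg.side d md) h.cd h.da h3 v hv hcv hav
  · exact opp_aux65 _ a b c ma mb mc hab hbc.symm (h.pg.side b mb) h.ab h.bc hgt v hv hav hcv

end Pool.Agent.QUD.H65
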