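import Pool.Agent.QUD.StmtsC

/-! # SHU: uniqueness of the two slants (QUD, MP_5b0138_an) -/

set_option autoImplicit false

namespace Pool.Agent.QUD.H65

open Pool.Agent.QUD

theorem den_pos65 {x : ℝ} (h0 : 0 ≤ x) (h1 : x < Real.pi / 2) : 0 < Real.pi ^ 2 / 4 - x ^ 2 := by
  have hp := Real.pi_pos
  nlinarith

theorem cos_pos65 {x : ℝ} (h0 : 0 ≤ x) (h1 : x < Real.pi / 2) : 0 < Real.cos x :=
  Real.cos_pos_of_mem_Ioo ⟨by linarith [Real.pi_pos], h1⟩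

theorem sH_lt65 {a b : ℝ} (h0 : 0 ≤ a) (hab : a < b) (h1 : b < Real.pi / 2) : sH a < sH b := by
  unfold sH
  have hb : 0 < Real.pi ^ 2 / 4 - b ^ 2 := den_pos65 (h0.trans hab.le) h1
  apply one_div_lt_one_div_of_lt hb
  nlinarith

theorem deriv_f65 {x : ℝ} (hx : 0 < Real.cos x) :
    HasDerivAt (fun t : ℝ => 1 / Real.cos t) (Real.sin x / Real.cos x ^ 2) x := by
  have h := (Real.hasDerivAt_cos x).inv hx.ne'
  have h2 : HasDerivAt (fun t : ℝ => (Real.cos t)⁻¹) (-(-Real.sin x) / Real.cos x ^ 2) x := h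
  simpa only [one_div, neg_neg] using h2

theorem deriv_g65 {x : ℝ} (hx : 0 < Real.pi ^ 2 / 4 - x ^ 2) :
    HasDerivAt sH (2 * x / (Real.pi ^ 2 / 4 - x ^ 2) ^ 2) x := by
  have h1 : HasDerivAt (fun t : ℝ => Real.pi ^ 2 / 4 - t ^ 2) (-(2 * x)) x := by
    have h := ((hasDerivAt_id x).pow 2).const_sub (Real.pi ^ 2 / 4)
    have h2 : HasDerivAt (fun t : ℝ => Real.pi ^ 2 / 4 - t ^ 2) (-((2 : ℕ) * x ^ (2 - 1) * 1)) x := h
    simpa using h2
  have h := h1.inv hx.ne'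
  have h2 : HasDerivAt (fun t : ℝ => (Real.pi ^ 2 / 4 - t ^ 2)⁻¹)
      (-(-(2 * x)) / (Real.pi ^ 2 / 4 - x ^ 2) ^ 2) x := h
  have h3 : sH = fun t : ℝ => (Real.pi ^ 2 / 4 - t ^ 2)⁻¹ := by
    funext t
    unfold sH
    rw [one_div]
  rw [h3]
  simpa only [neg_neg] using h2

/-- the ratio of the increments -/
theorem ratio65 {a b : ℝ} (h0 : 0 ≤ a) (hab : a < b) (h1 : b < Real.pi / 2) :
    ∃ ξ, a < ξ ∧ ξ < b ∧ (sH b - sH a) * (sM ξ / 2) = 1 / Real.cos b - 1 / Real.cos a := by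
  have hc : ∀ x ∈ Set.Icc a b, 0 < Real.cos x := fun x hx =>
    cos_pos65 (h0.trans hx.1) (lt_of_le_of_lt hx.2 h1)
  have hd : ∀ x ∈ Set.Icc a b, 0 < Real.pi ^ 2 / 4 - x ^ 2 := fun x hx =>
    den_pos65 (h0.trans hx.1) (lt_of_le_of_lt hx.2 h1)
  obtain ⟨ξ, hξ, he⟩ := exists_ratio_hasDerivAt_eq_ratio_slope (fun t : ℝ => 1 / Real.cos t)
    (fun x => Real.sin x / Real.cos x ^ 2) hab
    (fun x hx => (deriv_f65 (hc x hx)).continuousAt.continuousWithinAt)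
    (fun x hx => deriv_f65 (hc x (Set.Ioo_subset_Icc_self hx))) sH
    (fun x => 2 * x / (Real.pi ^ 2 / 4 - x ^ 2) ^ 2)
    (fun x hx => (deriv_g65 (hd x hx)).continuousAt.continuousWithinAt)
    (fun x hx => deriv_g65 (hd x (Set.Ioo_subset_Icc_self hx)))
  refine ⟨ξ, hξ.1, hξ.2, ?_⟩
  have hξ0 : 0 < ξ := lt_of_le_of_lt h0 hξ.1
  have hcξ := hc ξ (Set.Ioo_subset_Icc_self hξ)
  have hdξ := hd ξ (Set.Ioo_subset_Icc_self hξ)
  have hg' : 2 * ξ / (Real.pi ^ 2 / 4 - ξ ^ 2) ^ 2 ≠ 0 := by positivity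
  have hrel : Real.sin ξ / Real.cos ξ ^ 2
      = (2 * ξ / (Real.pi ^ 2 / 4 - ξ ^ 2) ^ 2) * (sM ξ / 2) := by
    unfold sM
    have hdξ' := hdξ.ne'
    have hcξ' := hcξ.ne'
    have hξ' := hξ0.ne'
    generalize Real.pi ^ 2 / 4 - ξ ^ 2 = D at hdξ' ⊢
    field_simp
  have he2 : (sH b - sH a) * (Real.sin ξ / Real.cos ξ ^ 2)
      = (1 / Real.cos b - 1 / Real.cos a) * (2 * ξ / (Real.pi ^ 2 / 4 - ξ ^ 2) ^ 2) := he
  rw [hrel] at he2
  have he3 : (2 * ξ / (Real.pi ^ 2 / 4 - ξ ^ 2) ^ 2) * ((sH b - sH a) * (sM ξ / 2))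
      = (2 * ξ / (Real.pi ^ 2 / 4 - ξ ^ 2) ^ 2) * (1 / Real.cos b - 1 / Real.cos a) := by
    linarith
  exact mul_left_cancel₀ hg' he3

/-- two disjoint intervals cannot have the same increments of both functions -/
theorem key65 (hmo : HmoStmt) {a b c d : ℝ} (h0 : 0 ≤ a) (hab : a < b) (hbc : b ≤ c) (hcd : c < d)
    (h1 : d < Real.pi / 2)
    (hf : 1 / Real.cos b - 1 / Real.cos a = 1 / Real.cos d - 1 / Real.cos c)
    (hg : sH b - sH a = sH d - sH c) : False := by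
  obtain ⟨ξ, x1, x2, x3⟩ := ratio65 h0 hab (by linarith)
  obtain ⟨ζ, z1, z2, z3⟩ := ratio65 (by linarith : 0 ≤ c) hcd h1
  have hlt : sM ξ < sM ζ := hmo ⟨by linarith, by linarith⟩ ⟨by linarith, by linarith⟩ (by linarith)
  have hpos : 0 < sH b - sH a := sub_pos.mpr (sH_lt65 h0 hab (by linarith))
  have h4 : (sH b - sH a) * (sM ξ / 2) = (sH b - sH a) * (sM ζ / 2) := by
    rw [x3, hf, ← z3, hg]
  have h5 := mul_left_cancel₀ hpos.ne' h4
  linarith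

theorem one_div_cos_inj65 {y y' : ℝ} (h0 : 0 ≤ y) (h1 : y < Real.pi / 2) (h0' : 0 ≤ y')
    (h1' : y' < Real.pi / 2) (h : 1 / Real.cos y = 1 / Real.cos y') : y = y' := by
  have hc : Real.cos y = Real.cos y' := by
    have h2 : (Real.cos y)⁻¹ = (Real.cos y')⁻¹ := by
      rw [← one_div, ← one_div, h]
    exact inv_injective h2
  exact Real.injOn_cos ⟨h0, by linarith [Real.pi_pos]⟩ ⟨h0', by linarith [Real.pi_pos]⟩ hc

theorem lt_case65 (hmo : HmoStmt) {x y x' y' : ℝ} (hx : 0 ≤ x) (hy1 : y < Real.pi / 2)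
    (hxx : x < x') (hxy' : x' ≤ y') (hy1' : y' < Real.pi / 2) (hy : 0 ≤ y)
    (hf : 1 / Real.cos x + 1 / Real.cos y = 1 / Real.cos x' + 1 / Real.cos y')
    (hg : sH x + sH y = sH x' + sH y') : False := by
  have h1 : sH x < sH x' := sH_lt65 hx hxx (by linarith)
  have h2 : sH y' < sH y := by linarith
  have h3 : y' < y := by
    by_contra hle
    have hle' : y ≤ y' := not_lt.mp hle
    rcases hle'.eq_or_lt with he | hl
    · rw [he] at h2
      exact lt_irrefl _ h2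
    · exact lt_asymm h2 (sH_lt65 hy hl hy1')
  exact key65 hmo hx hxx hxy' h3 hy1 (by linarith) (by linarith)

theorem core65 (hmo : HmoStmt) {x y x' y' : ℝ} (hx : 0 ≤ x) (hxy : x ≤ y) (hy1 : y < Real.pi / 2)
    (hx' : 0 ≤ x') (hxy' : x' ≤ y') (hy1' : y' < Real.pi / 2)
    (hf : 1 / Real.cos x + 1 / Real.cos y = 1 / Real.cos x' + 1 / Real.cos y')
    (hg : sH x + sH y = sH x' + sH y') : x = x' ∧ y = y' := by
  rcases lt_trichotomy x x' with h | h | h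
  · exact (lt_case65 hmo hx hy1 h hxy' hy1' (hx.trans hxy) hf hg).elim
  · refine ⟨h, one_div_cos_inj65 (hx.trans hxy) hy1 (hx'.trans hxy') hy1' ?_⟩
    rw [h] at hf
    linarith
  · exact (lt_case65 hmo hx' hy1' h hxy hy1 (hx'.trans hxy') hf.symm hg.symm).elim

/-- SHU -/
theorem shu (hmo : HmoStmt) : ShuStmt := by
  intro x y x' y' hx hx1 hy hy1 hx' hx1' hy' hy1' hf hg
  rcases le_total x y with h | h <;> rcases le_total x' y' with h' | h'
  · exact Or.inl (core65 hmo hx h hy1 hx' h' hy1' hf hg)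
  · have := core65 hmo hx h hy1 hy' h' hx1' (by linarith) (by linarith)
    exact Or.inr this
  · have := core65 hmo hy h hx1 hx' h' hy1' (by linarith) (by linarith)
    exact Or.inr ⟨this.2, this.1⟩
  · have := core65 hmo hy h hx1 hy' h' hx1' (by linarith) (by linarith)
    exact Or.inl ⟨this.2, this.1⟩

end Pool.Agent.QUD.H65
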